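import Pool.Agent.Q297.DisMain

open MeasureTheory

namespace Pool.Agent.Results.MP_fe4852_pr.PointwiseOptimal

/-- Total variation distance of two laws on the real line: the supremum of `|μ(A) - ν(A)|` over
measurable sets `A`. -/
noncomputable def dTV (μ ν : Measure ℝ) : ℝ :=
  ⨆ A : {A : Set ℝ // MeasurableSet A}, |μ.real A.1 - ν.real A.1|

/-- `f : [0,1] → [0,1]` (a real function whose values outside `[0,1]` are irrelevant) is a
disagreement bound: for every finite collection of laws `μ i` of real random variables there is a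
coupling, i.e. random variables `X i` on one probability space with laws `μ i`, such that
`P(X i ≠ X j) ≤ f (dTV (μ i) (μ j))` for every two members. -/
def IsDisagreementBound (f : ℝ → ℝ) : Prop :=
  (∀ x ∈ Set.Icc (0:ℝ) 1, f x ∈ Set.Icc (0:ℝ) 1) ∧
  ∀ (n : ℕ) (μ : Fin n → Measure ℝ), (∀ i, IsProbabilityMeasure (μ i)) →
    ∃ (Ω : Type) (_ : MeasurableSpace Ω) (P : Measure Ω) (_ : IsProbabilityMeasure P)
      (X : Fin n → Ω → ℝ), (∀ i, Measurable (X i)) ∧ (∀ i, P.map (X i) = μ i) ∧
      ∀ i j, i ≠ j → P.real {ω | X i ω ≠ X j ω} ≤ f (dTV (μ i) (μ j))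

/-- **Pointwise optimality of `2x/(1+x)`.**  Every disagreement bound `f` satisfies
`f x ≥ 2x/(1+x)` for all `x ∈ [0,1]`. -/
theorem result (f : ℝ → ℝ) (hf : IsDisagreementBound f) (x : ℝ) (hx : x ∈ Set.Icc (0:ℝ) 1) :
    2 * x / (1 + x) ≤ f x :=
  Q297.Dis.lower_bound (f := f) hf hx

end Pool.Agent.Results.MP_fe4852_pr.PointwiseOptimal
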